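import Pool.Agent.H41.GM.Stm

set_option autoImplicit false

namespace Pool.Agent.H56.GM

open MeasureTheory Filter Topology ProbabilityTheory Pool.Agent.H41.GM

theorem log_pos' (m : ℕ) : 0 < Real.log ((m : ℝ) + 2) := by
  apply Real.log_pos
  have : (0 : ℝ) ≤ m := Nat.cast_nonneg m
  linarith

theorem sc_pos (m : ℕ) : 0 < sc m := pow_pos (log_pos' m) 4

theorem one_le_log {j : ℕ} (hj : 1 ≤ j) : 1 ≤ Real.log ((j : ℝ) + 2) := by
  have h1 : (1 : ℝ) ≤ j := by exact_mod_cast hj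
  rw [Real.le_log_iff_exp_le (by linarith)]
  have := Real.exp_one_lt_d9
  linarith

theorem det_bound (C : ℕ) (hC : 1 ≤ C) : ∃ c : ℝ, 0 < c ∧ ∀ j : ℕ, C ≤ j → ∀ m : ℕ,
    (m : ℝ) ≤ C * (j * sc j) →
    c * aa j ≤ (⌊4 * (((j : ℝ) * sc j) / C) ^ (4 / 5 : ℝ)⌋₊ : ℝ) / sc m := by
  have hC0 : (0 : ℝ) < C := by exact_mod_cast hC
  refine ⟨3 * ((C : ℝ)⁻¹) ^ (4 / 5 : ℝ) / 6 ^ 4, by positivity, ?_⟩
  intro j hj m hm
  have hj1 : 1 ≤ j := le_trans hC hj
  have hL := one_le_log hj1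
  set L := Real.log ((j : ℝ) + 2) with hLdef
  have hjr : (1 : ℝ) ≤ j := by exact_mod_cast hj1
  have hCj : (C : ℝ) ≤ j := by exact_mod_cast hj
  have hscj : sc j = L ^ 4 := rfl
  have hL0 : 0 < L := by linarith
  -- `sc m ≤ 6 ^ 4 * sc j`
  have hLle : L ≤ (j : ℝ) + 2 := by
    have := Real.log_le_sub_one_of_pos (show (0 : ℝ) < (j : ℝ) + 2 by linarith)
    linarith
  have hm2 : (m : ℝ) + 2 ≤ ((j : ℝ) + 2) ^ 6 := by
    have h1 : L ^ 4 ≤ ((j : ℝ) + 2) ^ 4 := pow_le_pow_left₀ hL0.le hLle 4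
    have h2 : (C : ℝ) * (j * sc j) ≤ j * (j * ((j : ℝ) + 2) ^ 4) := by
      rw [hscj]
      gcongr
    have h3 : (j : ℝ) * (j * ((j : ℝ) + 2) ^ 4) + 2 ≤ ((j : ℝ) + 2) ^ 6 := by
      have h4 : (1 : ℝ) ≤ ((j : ℝ) + 2) ^ 4 := one_le_pow₀ (by linarith)
      nlinarith [h4]
    linarith
  have hlogm : Real.log ((m : ℝ) + 2) ≤ 6 * L := by
    have h1 : (0 : ℝ) < (m : ℝ) + 2 := by positivity
    have := Real.log_le_log h1 hm2
    rwa [Real.log_pow] at this
  have hscm : sc m ≤ 6 ^ 4 * sc j := by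
    rw [hscj, ← mul_pow]
    exact pow_le_pow_left₀ (log_pos' m).le hlogm 4
  -- the value
  have hx : (((j : ℝ) * sc j) / C) ^ (4 / 5 : ℝ) =
      ((C : ℝ)⁻¹) ^ (4 / 5 : ℝ) * (aa j * sc j) := by
    have e1 : ((j : ℝ) * sc j) / C = (C : ℝ)⁻¹ * (((j : ℝ) / L) * L ^ 5) := by
      rw [hscj]
      field_simp
    rw [e1, Real.mul_rpow (by positivity) (by positivity),
      Real.mul_rpow (by positivity) (by positivity)]
    congr 2
    rw [← Real.rpow_natCast L 5, ← Real.rpow_mul hL0.le, hscj, ← Real.rpow_natCast L 4]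
    norm_num
  have hx1 : 1 ≤ (((j : ℝ) * sc j) / C) ^ (4 / 5 : ℝ) := by
    refine Real.one_le_rpow ?_ (by norm_num)
    rw [le_div_iff₀ hC0, one_mul, hscj]
    have : (1 : ℝ) ≤ L ^ 4 := one_le_pow₀ hL
    nlinarith
  set x := (((j : ℝ) * sc j) / C) ^ (4 / 5 : ℝ) with hxdef
  have hfl : 3 * x ≤ (⌊4 * x⌋₊ : ℝ) := by
    have := Nat.lt_floor_add_one (4 * x)
    linarith
  have hsm := sc_pos m
  rw [le_div_iff₀ hsm]
  have haa : 0 ≤ aa j := by
    unfold aa
    positivity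
  calc 3 * ((C : ℝ)⁻¹) ^ (4 / 5 : ℝ) / 6 ^ 4 * aa j * sc m
      ≤ 3 * ((C : ℝ)⁻¹) ^ (4 / 5 : ℝ) / 6 ^ 4 * aa j * (6 ^ 4 * sc j) := by
        refine mul_le_mul_of_nonneg_left hscm (by positivity)
    _ = 3 * x := by rw [hx]; ring
    _ ≤ _ := hfl

/-- The bad event of module UPP. -/
def bad {Ω : Type} (q : ℕ → Ω → ℕ) (C : ℕ) (j : ℕ) : Set Ω :=
  {ω | ((j : ℝ) * sc j ≤ C * q j ω ∧ (q j ω : ℝ) ≤ C * (j * sc j)) ∧
    4 * (q j ω : ℝ) ^ (4 / 5 : ℝ) < (q (j + 1) ω : ℝ) - q j ω}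

theorem bad_bound {Ω : Type} [mΩ : MeasurableSpace Ω] (P : Measure Ω) [IsProbabilityMeasure P]
    (ℱ : Filtration ℕ mΩ) (q : ℕ → Ω → ℕ) (T : ℝ → ℝ) (hT : Antitone T) (hT0 : ∀ t, 0 ≤ T t)
    (hG : Gaps P ℱ q T) (C : ℕ) (hC : 1 ≤ C) :
    ∃ c c₂ : ℝ, 0 < c ∧ 0 < c₂ ∧ ∃ J : ℕ, ∀ j, J ≤ j → P.real (bad q C j) ≤ c₂ * T (c * aa j) := by
  obtain ⟨c₁, c₂, hc₁, hc₂, M, htail⟩ := hG.tail
  obtain ⟨c, hc, hdet⟩ := det_bound C hC
  have hC0 : (0 : ℝ) < C := by exact_mod_cast hC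
  refine ⟨c, c₂, hc, hc₂, max C (C * M), ?_⟩
  intro j hj
  have hjC : C ≤ j := le_trans (le_max_left _ _) hj
  have hjM : C * M ≤ j := le_trans (le_max_right _ _) hj
  have hj1 : 1 ≤ j := le_trans hC hjC
  have hsc1 : 1 ≤ sc j := one_le_pow₀ (one_le_log hj1)
  set h : ℕ := ⌊4 * (((j : ℝ) * sc j) / C) ^ (4 / 5 : ℝ)⌋₊ with hh
  set L : ℕ := ⌊(C : ℝ) * (j * sc j)⌋₊ with hLdef
  let B : ℕ → Set Ω := fun m => {ω | q j ω = m}
  have hBm : ∀ m, MeasurableSet[ℱ j] (B m) := fun m => hG.meas j (measurableSet_singleton m)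
  have hBm' : ∀ m, MeasurableSet (B m) := fun m => ℱ.le j _ (hBm m)
  -- the pieces
  have hpiece : ∀ m ∈ Finset.range (L + 1),
      P.real (bad q C j ∩ B m) ≤ c₂ * T (c * aa j) * P.real (B m) := by
    intro m _
    by_cases hr : (j : ℝ) * sc j ≤ C * m ∧ (m : ℝ) ≤ C * (j * sc j)
    · have hmM : M ≤ m := by
        have h1 : (C : ℝ) * M ≤ C * m := by
          calc (C : ℝ) * M ≤ j := by exact_mod_cast hjM
            _ = (j : ℝ) * 1 := (mul_one _).symm
            _ ≤ (j : ℝ) * sc j := mul_le_mul_of_nonneg_left hsc1 (Nat.cast_nonneg j)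
            _ ≤ C * m := hr.1
        have h2 : (M : ℝ) ≤ m := le_of_mul_le_mul_left h1 hC0
        exact_mod_cast h2
      have h3 := (htail j m h hmM (B m) (hBm m) (fun ω hω => hω)).2
      have hsub : bad q C j ∩ B m ⊆ B m ∩ {ω | m + h < q (j + 1) ω} := by
        rintro ω ⟨⟨_, hω2⟩, hω3⟩
        refine ⟨hω3, ?_⟩
        have hqm : q j ω = m := hω3
        rw [hqm] at hω2
        show m + h < q (j + 1) ω
        have h4 : (h : ℝ) ≤ 4 * (m : ℝ) ^ (4 / 5 : ℝ) := by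
          have h5 : (h : ℝ) ≤ 4 * (((j : ℝ) * sc j) / C) ^ (4 / 5 : ℝ) := by
            apply Nat.floor_le
            have := (sc_pos j).le
            positivity
          refine h5.trans ?_
          have h6 : ((j : ℝ) * sc j) / C ≤ m := by
            rw [div_le_iff₀ hC0, mul_comm]
            exact (mul_comm (C : ℝ) m ▸ hr.1).trans_eq (by ring) |>.trans_eq' (by ring)
          have h7 : (((j : ℝ) * sc j) / C) ^ (4 / 5 : ℝ) ≤ (m : ℝ) ^ (4 / 5 : ℝ) := by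
            apply Real.rpow_le_rpow _ h6 (by norm_num)
            have := (sc_pos j).le
            positivity
          linarith
        have h8 : ((m + h : ℕ) : ℝ) < (q (j + 1) ω : ℝ) := by
          push_cast
          linarith
        exact_mod_cast h8
      calc P.real (bad q C j ∩ B m) ≤ P.real (B m ∩ {ω | m + h < q (j + 1) ω}) :=
            measureReal_mono hsub
        _ ≤ c₂ * T (h / sc m) * P.real (B m) := h3
        _ ≤ c₂ * T (c * aa j) * P.real (B m) := by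
            refine mul_le_mul_of_nonneg_right ?_ measureReal_nonneg
            exact mul_le_mul_of_nonneg_left (hT (hdet j hjC m hr.2)) hc₂.le
    · have hem : bad q C j ∩ B m = ∅ := by
        ext ω
        simp only [Set.mem_inter_iff, Set.mem_empty_iff_false, iff_false, not_and]
        intro hω1 hω2
        apply hr
        have hqm : q j ω = m := hω2
        have := hω1.1
        rwa [hqm] at this
      rw [hem, measureReal_empty]
      exact mul_nonneg (mul_nonneg hc₂.le (hT0 _)) measureReal_nonneg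
  have hcover : bad q C j ⊆ ⋃ m ∈ Finset.range (L + 1), (bad q C j ∩ B m) := by
    intro ω hω
    simp only [Set.mem_iUnion]
    refine ⟨q j ω, ?_, hω, rfl⟩
    rw [Finset.mem_range, Nat.lt_succ_iff]
    exact Nat.le_floor hω.1.2
  have hdisj : Set.PairwiseDisjoint (↑(Finset.range (L + 1))) B := by
    intro m _ m' _ hmm
    refine Set.disjoint_left.2 ?_
    intro ω h1 h2
    exact hmm ((show q j ω = m from h1).symm.trans h2)
  calc P.real (bad q C j) ≤ P.real (⋃ m ∈ Finset.range (L + 1), (bad q C j ∩ B m)) :=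
        measureReal_mono hcover (measure_ne_top P _)
    _ ≤ ∑ m ∈ Finset.range (L + 1), P.real (bad q C j ∩ B m) := measureReal_biUnion_finset_le _ _
    _ ≤ ∑ m ∈ Finset.range (L + 1), c₂ * T (c * aa j) * P.real (B m) := Finset.sum_le_sum hpiece
    _ = c₂ * T (c * aa j) * ∑ m ∈ Finset.range (L + 1), P.real (B m) := by rw [Finset.mul_sum]
    _ = c₂ * T (c * aa j) * P.real (⋃ m ∈ Finset.range (L + 1), B m) := by
        rw [measureReal_biUnion_finset hdisj (fun m _ => hBm' m)]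
    _ ≤ c₂ * T (c * aa j) * 1 :=
        mul_le_mul_of_nonneg_left measureReal_le_one (mul_nonneg hc₂.le (hT0 _))
    _ = c₂ * T (c * aa j) := mul_one _

theorem upp (hS : S_SUM) : S_UPP := by
  intro Ω mΩ P _ ℱ q T hT hT0 hG hsum
  have hC : ∀ C : ℕ, 1 ≤ C → ∀ᵐ ω ∂P, ∀ᶠ j : ℕ in atTop, ω ∉ bad q C j := by
    intro C hC
    obtain ⟨c, c₂, hc, hc₂, J, hJ⟩ := bad_bound P ℱ q T hT hT0 hG C hC
    have h1 : Summable fun j : ℕ => c₂ * T (c * aa j) := ((hS T hT hT0 c hc).2 hsum).mul_left c₂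
    have h2 : Summable fun j : ℕ => P.real (bad q C (j + J)) := by
      refine Summable.of_nonneg_of_le (fun _ => measureReal_nonneg) (fun j => hJ (j + J) (by omega)) ?_
      exact (summable_nat_add_iff J).2 h1
    have h3 : ∑' j, P (bad q C (j + J)) ≠ ⊤ := by
      have h4 : ∀ j, P (bad q C (j + J)) = ENNReal.ofReal (P.real (bad q C (j + J))) := fun j =>
        (ofReal_measureReal (measure_ne_top P _)).symm
      simp only [h4]
      exact h2.tsum_ofReal_ne_top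
    have h5 := ae_eventually_notMem h3
    filter_upwards [h5] with ω hω
    rw [Filter.eventually_atTop] at hω ⊢
    obtain ⟨a, ha⟩ := hω
    refine ⟨a + J, fun j hj => ?_⟩
    have := ha (j - J) (by omega)
    rwa [show j - J + J = j by omega] at this
  have hall : ∀ᵐ ω ∂P, ∀ C : ℕ, 1 ≤ C → ∀ᶠ j : ℕ in atTop, ω ∉ bad q C j := by
    rw [ae_all_iff]
    intro C
    by_cases h : 1 ≤ C
    · filter_upwards [hC C h] with ω hω _
      exact hω
    · exact Filter.Eventually.of_forall fun ω h' => absurd h' h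
  filter_upwards [hall, hG.order] with ω h1 h2
  obtain ⟨C, hC0, h3⟩ := h2
  have h4 := h1 (max 1 ⌈C⌉₊) (le_max_left _ _)
  filter_upwards [h3, h4] with j h5 h6
  by_contra h7
  push Not at h7
  apply h6
  have hCC : C ≤ ((max 1 ⌈C⌉₊ : ℕ) : ℝ) := by
    refine (Nat.le_ceil C).trans ?_
    exact_mod_cast le_max_right _ _
  have hs := (sc_pos j).le
  refine ⟨⟨h5.1.trans ?_, h5.2.trans ?_⟩, h7⟩
  · exact mul_le_mul_of_nonneg_right hCC (Nat.cast_nonneg _)
  · exact mul_le_mul_of_nonneg_right hCC (by positivity)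

end Pool.Agent.H56.GM
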